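import Pool.Agent.H46R2.K3.FIN
import Pool.Agent.H46R2.K3.EQ

/-!
Self-avoiding walks on `ℤ³`: the connective constant `μ` exists and for every `ε > 0` there is `K` with
`μ^n ≤ c_n ≤ μ^n exp(K n^(3/8 + ε))` for all `n` (Kesten 1964: exponent `2/5`).
-/

namespace Pool.Agent.Results.MP_794e6e_pr.ThreeEighths

open Filter Topology

/-- the number of `n`-step self-avoiding nearest-neighbour walks on `ℤ³` from `0` -/
noncomputable def C (n : ℕ) : ℕ :=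
  Nat.card {f : Fin (n + 1) → (Fin 3 → ℤ) //
    f 0 = 0 ∧ Function.Injective f ∧
    ∀ i : Fin n, ∑ j : Fin 3, |f i.succ j - f i.castSucc j| = 1}

/-- **Theorem.** On `ℤ³` the limit `μ` of `c_n^(1/n)` exists and is positive, `μ^n ≤ c_n` for all `n`,
and for every `ε > 0` there is a constant `K` such that `c_n ≤ μ^n exp(K n^(3/8+ε))` for all `n`. -/
theorem result : ∃ μ : ℝ, 0 < μ ∧
    Tendsto (fun n : ℕ => (C n : ℝ) ^ (1 / (n : ℝ))) atTop (𝓝 μ) ∧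
    (∀ n : ℕ, μ ^ n ≤ (C n : ℝ)) ∧
    ∀ ε : ℝ, 0 < ε → ∃ K : ℝ, ∀ n : ℕ,
      (C n : ℝ) ≤ μ ^ n * Real.exp (K * (n : ℝ) ^ (3 / 8 + ε)) := by
  have hC : ∀ n, C n = Pool.Agent.H46R2.K3.c n := fun n => Pool.Agent.H46R2.K3.P.card_eq n
  refine ⟨Pool.Agent.H46R2.K3.mu, lt_of_lt_of_le one_pos Pool.Agent.H46R2.K3.P.one_le_mu,
    ?_, ?_, ?_⟩
  · simpa only [hC] using Pool.Agent.H46R2.K3.P.tendsto_c
  · intro n; rw [hC]; exact Pool.Agent.H46R2.K3.P.mu_pow_le n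
  · intro ε hε
    obtain ⟨K, hK⟩ := Pool.Agent.H46R2.K3.P.c_final ε hε
    exact ⟨K, fun n => by rw [hC]; exact hK n⟩

end Pool.Agent.Results.MP_794e6e_pr.ThreeEighths
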